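import Pool.Agent.Q107.OD.Prod

/-!
# The congruences modulo 7
-/

set_option autoImplicit false

namespace Pool.Agent.Q107.OD

open Finset PowerSeries Filter Topology
open scoped PowerSeries.WithPiTopology

theorem continuous_th : Continuous th := by
  rw [continuous_iff_continuousAt]
  intro f
  unfold ContinuousAt
  rw [WithPiTopology.tendsto_iff_coeff_tendsto]
  intro d
  simp only [coeff_th]
  exact tendsto_const_nhds.mul ((WithPiTopology.continuous_coeff ℤ d).tendsto f)

/-- `q d/dq` as an additive map -/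
noncomputable def thHom : ℤ⟦X⟧ →+ ℤ⟦X⟧ where
  toFun := th
  map_zero' := by ext n; rw [coeff_th]; simp
  map_add' f g := by ext n; rw [coeff_th, map_add, map_add, coeff_th, coeff_th]; ring

theorem th_monomial (e : ℕ) (c : ℤ) : th (monomial e c) = monomial e (c * e) := by
  ext n
  rw [coeff_th, coeff_monomial, coeff_monomial]
  split_ifs with h
  · rw [h]; ring
  · ring

theorem hasSum_T0 : HasSum (fun m : ℤ => (monomial (tri m) (sg m) : ℤ⟦X⟧)) 0 := by
  have h := (summable_monomial (fun n : ℤ => sg n) _ (finite_of_bound _ tri_bound)).hasSum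
  have h2 := zero_of_neg (Equiv.subLeft (-1 : ℤ)) h (fun m => by
    have e1 : tri ((Equiv.subLeft (-1 : ℤ)) m) = tri m := by
      rw [Equiv.subLeft_apply, ← tri_neg m]
      congr 1
      ring
    have e2 : sg ((Equiv.subLeft (-1 : ℤ)) m) = - sg m := by
      rw [Equiv.subLeft_apply, sub_eq_add_neg, sg_add, sg_neg m, show sg (-1) = -1 by decide]
      ring
    rw [e1, e2, map_neg])
  rw [h2] at h
  exact h

theorem hasSum_two_T1 :
    HasSum (fun m : ℤ => (monomial (tri m) (sg m * (2 * m + 1)) : ℤ⟦X⟧)) (2 * T1) := by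
  have h := (hasSum_T1.mul_left 2).add hasSum_T0
  rw [add_zero] at h
  have e : (fun m : ℤ => (monomial (tri m) (sg m * (2 * m + 1)) : ℤ⟦X⟧)) =
      fun b => 2 * (monomial (tri b)) (sg b * b) + (monomial (tri b)) (sg b) := by
    funext m
    have h2 : (2 : ℤ⟦X⟧) = C 2 := by rw [map_ofNat]
    rw [h2, ← smul_eq_C_mul, ← map_smul, ← map_add]
    congr 1
    simp only [smul_eq_mul]
    ring
  rw [e]
  exact h

theorem hasSum_th : HasSum (fun m : ℤ => (monomial (tri m) (sg m * (2 * m + 1) * tri m) : ℤ⟦X⟧))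
    (th (2 * T1)) := by
  have h := hasSum_two_T1.map thHom continuous_th
  have e : (fun m : ℤ => (monomial (tri m) (sg m * (2 * m + 1) * tri m) : ℤ⟦X⟧)) =
      thHom ∘ fun m : ℤ => (monomial (tri m) (sg m * (2 * m + 1)) : ℤ⟦X⟧) := by
    funext m
    exact (th_monomial _ _).symm
  rw [e]
  exact h

theorem th_two_mul (f : ℤ⟦X⟧) : th (2 * f) = 2 * th f := by
  have : (2 : ℤ⟦X⟧) = C 2 := by rw [map_ofNat]
  ext n
  rw [coeff_th, this, coeff_C_mul, coeff_C_mul, coeff_th]
  ring

theorem hasSum_double : HasSum (fun p : ℤ × ℤ => (monomial (tri p.1 + pentagonal (-p.2))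
    ((sg p.1 * (2 * p.1 + 1) * tri p.1) * (6 * p.2 + 1)) : ℤ⟦X⟧)) (2 * th T1 * T3) := by
  have h := hasSum_mul (fun m => sg m * (2 * m + 1) * tri m) (fun m => 6 * m + 1) tri
    (fun m => pentagonal (-m)) tri_bound
    (fun i => by have := pent_bound (-i); rwa [Int.natAbs_neg] at this) hasSum_th hasSum_T3
  rw [th_two_mul] at h
  exact h

theorem mod7 : ∀ a b : ZMod 7, (4 * (a * (a + 1)) + 4 * (b * (3 * b + 1)) = 0 ∨
    4 * (a * (a + 1)) + 4 * (b * (3 * b + 1)) = 5) →
    (2 * a + 1) * (4 * (a * (a + 1))) * (6 * b + 1) = 0 := by decide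

theorem term_dvd (m : ℕ) (hm : m % 7 = 0 ∨ m % 7 = 5) (a b : ℤ)
    (h : tri a + pentagonal (-b) = m) :
    (7 : ℤ) ∣ (sg a * (2 * a + 1) * tri a) * (6 * b + 1) := by
  have h1 := two_tri a
  have h2 := two_mul_natCast_pentagonal_neg b
  have c1 : ((tri a : ℤ) : ZMod 7) = 4 * (a * (a + 1)) := by
    have := congrArg (Int.cast (R := ZMod 7)) h1
    push_cast at this ⊢
    have h8 : (8 : ZMod 7) = 1 := rfl
    linear_combination 4 * this - ((tri a : ℕ) : ZMod 7) * h8
  have c2 : ((pentagonal (-b) : ℤ) : ZMod 7) = 4 * (b * (3 * b + 1)) := by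
    have := congrArg (Int.cast (R := ZMod 7)) h2
    push_cast at this ⊢
    have h8 : (8 : ZMod 7) = 1 := rfl
    linear_combination 4 * this - ((pentagonal (-b) : ℕ) : ZMod 7) * h8
  have c3 : (4 * ((a : ZMod 7) * (a + 1)) + 4 * (b * (3 * b + 1))) = (m : ZMod 7) := by
    rw [← c1, ← c2, ← h]
    push_cast
    ring
  have c4 : (m : ZMod 7) = 0 ∨ (m : ZMod 7) = 5 := by
    rcases hm with hm | hm
    · left
      rw [← ZMod.natCast_mod, hm]; rfl
    · right
      rw [← ZMod.natCast_mod, hm]; rfl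
  have c5 := mod7 a b (by rw [c3]; exact c4)
  have c6 : (((2 * a + 1) * tri a * (6 * b + 1) : ℤ) : ZMod 7) = 0 := by
    push_cast at c1 ⊢
    rw [c1]
    exact c5
  have c7 := (ZMod.intCast_zmod_eq_zero_iff_dvd _ 7).1 c6
  have c8 : (sg a * (2 * a + 1) * tri a) * (6 * b + 1) = sg a * ((2 * a + 1) * tri a * (6 * b + 1)) := by
    ring
  rw [c8]
  exact Dvd.dvd.mul_left (by exact_mod_cast c7) _

theorem coeff_dvd (m : ℕ) (hm : m % 7 = 0 ∨ m % 7 = 5) : (7 : ℤ) ∣ coeff m (G * E1 ^ 7) := by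
  have h := ((WithPiTopology.hasSum_iff_hasSum_coeff ℤ).1 hasSum_double) m
  have h2 : (7 : ℤ) ∣ coeff m (2 * th T1 * T3) := by
    rw [HasSum, SummationFilter.unconditional_filter, nhds_discrete, tendsto_pure] at h
    obtain ⟨s, hs⟩ := h.exists
    rw [← hs]
    refine dvd_sum fun p _ => ?_
    rw [coeff_monomial]
    split_ifs with h3
    · exact term_dvd m hm p.1 p.2 h3.symm
    · exact dvd_zero _
  have e : coeff m (2 * th T1 * T3) = 6 * coeff m (G * E1 ^ 7) := by
    rw [mul_assoc, main_identity, ← mul_assoc]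
    have : (2 : ℤ⟦X⟧) * 3 = C 6 := by rw [map_ofNat]; norm_num
    rw [this, coeff_C_mul]
  rw [e] at h2
  omega

/-- the reduction modulo 7 -/
noncomputable def red : ℤ⟦X⟧ →+* (ZMod 7)⟦X⟧ := PowerSeries.map (Int.castRingHom (ZMod 7))

/-- Euler's product modulo 7 -/
noncomputable def E1Z : (ZMod 7)⟦X⟧ := pentagonalSeries (ZMod 7)

theorem red_E1 : red E1 = E1Z := by
  ext n
  unfold red E1 E1Z
  rw [coeff_map]
  by_cases h : n ∈ Set.range pentagonal
  · obtain ⟨k, rfl⟩ := h
    rw [coeff_pentagonalSeries_pentagonal, coeff_pentagonalSeries_pentagonal]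
    simp
  · rw [coeff_pentagonalSeries_eq_zero _ h, coeff_pentagonalSeries_eq_zero _ h]
    simp

theorem E1Z_pow : E1Z ^ 7 = expand 7 (by norm_num) E1Z := by
  have h1 : HasProd (fun n => (1 - X ^ (n + 1) : (ZMod 7)⟦X⟧)) E1Z :=
    WithPiTopology.hasProd_one_sub_X_pow (ZMod 7)
  have h2 := h1.map (expand (R := ZMod 7) 7 (by norm_num)) (continuous_expand 7 (by norm_num))
  have h3 := h1.map (powMonoidHom 7) (continuous_pow 7)
  have : CharP (ZMod 7)⟦X⟧ 7 :=
    charP_of_injective_ringHom (f := (C : ZMod 7 →+* (ZMod 7)⟦X⟧)) C_injective 7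
  have : Fact (Nat.Prime 7) := ⟨by norm_num⟩
  have e : (expand (R := ZMod 7) 7 (by norm_num)) ∘ (fun n : ℕ => (1 - X ^ (n + 1) : (ZMod 7)⟦X⟧)) =
      (powMonoidHom 7) ∘ (fun n : ℕ => (1 - X ^ (n + 1) : (ZMod 7)⟦X⟧)) := by
    funext n
    simp only [Function.comp, map_sub, map_one, map_pow, expand_X, powMonoidHom_apply]
    rw [sub_pow_char, one_pow, ← pow_mul, ← pow_mul, mul_comm]
  rw [e] at h2
  exact h3.unique h2

theorem coeff_red (m : ℕ) (hm : m % 7 = 0 ∨ m % 7 = 5) :
    coeff m (red G * expand 7 (by norm_num) E1Z) = 0 := by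
  rw [← E1Z_pow, ← red_E1, ← map_pow, ← map_mul]
  unfold red
  rw [coeff_map]
  obtain ⟨c, hc⟩ := coeff_dvd m hm
  rw [hc]
  have h7 : (7 : ZMod 7) = 0 := rfl
  simp [h7]

theorem coeff_G (m : ℕ) (hm : m % 7 = 0 ∨ m % 7 = 5) : coeff m (red G) = 0 := by
  induction m using Nat.strong_induction_on with
  | _ m ih =>
    have h := coeff_red m hm
    rw [coeff_mul] at h
    rw [← h]
    symm
    rw [Finset.sum_eq_single (m, 0)]
    · have : coeff 0 (expand 7 (by norm_num) E1Z) = 1 := by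
        rw [coeff_expand, if_pos (dvd_zero 7), Nat.zero_div]
        have := coeff_pentagonalSeries_pentagonal (ZMod 7) 0
        have e : pentagonal 0 = 0 := by decide
        rw [e] at this
        unfold E1Z
        rw [this]
        simp
      rw [this, mul_one]
    · rintro ⟨i, j⟩ hij hne
      rw [HasAntidiagonal.mem_antidiagonal] at hij
      simp only at hij ⊢
      have hj : j ≠ 0 := by
        rintro rfl
        apply hne
        rw [add_zero] at hij
        rw [hij]
      by_cases h7 : 7 ∣ j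
      · rw [ih i (by omega) (by omega), zero_mul]
      · rw [coeff_expand, if_neg h7, mul_zero]
    · intro h
      exact absurd (HasAntidiagonal.mem_antidiagonal.2 (by simp)) h

theorem S_dvd (m : ℕ) (hm : m % 7 = 0 ∨ m % 7 = 5) : (7 : ℤ) ∣ S m := by
  have h := coeff_G m hm
  unfold red G at h
  rw [coeff_map, coeff_mk] at h
  have h2 := (ZMod.intCast_zmod_eq_zero_iff_dvd _ 7).1 h
  rcases neg_one_pow_eq_or ℤ m with h1 | h1
  · rw [h1, one_mul] at h2
    exact_mod_cast h2
  · rw [h1, neg_one_mul, dvd_neg] at h2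
    exact_mod_cast h2

end Pool.Agent.Q107.OD
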