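import Pool.Agent.Q107.OD.Gauss
import Pool.Agent.Y246.Z700.Jac2

/-!
# The identity `E1^5 = E2^2 * T3` by a rearrangement of a double theta series
-/

set_option autoImplicit false

namespace Pool.Agent.Q107.OD

open Finset PowerSeries Filter Topology
open scoped PowerSeries.WithPiTopology

/-- the sign `(-1)^n` of an integer `n` -/
def sg (n : ℤ) : ℤ := if n % 2 = 0 then 1 else -1

theorem sg_add (a b : ℤ) : sg (a + b) = sg a * sg b := by
  unfold sg
  split_ifs <;> first | rfl | omega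

theorem sg_neg (a : ℤ) : sg (-a) = sg a := by
  unfold sg
  split_ifs <;> first | rfl | omega

theorem sg_natAbs (a : ℤ) : (-1 : ℤ) ^ a.natAbs = sg a := by
  unfold sg
  split_ifs with h
  · exact Even.neg_one_pow (by rw [Nat.even_iff]; omega)
  · exact Odd.neg_one_pow (by rw [Nat.odd_iff]; omega)

theorem sg_negOnePow (a : ℤ) : (Int.negOnePow a : ℤ) = sg a := by
  unfold sg
  split_ifs with h
  · rw [Int.negOnePow_even a (Int.even_iff.2 h)]; rfl
  · rw [Int.negOnePow_odd a (Int.odd_iff.2 (by omega))]; rfl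

/-- triangular exponents -/
def tri (m : ℤ) : ℕ := (m * (m + 1) / 2).toNat

theorem two_tri (m : ℤ) : 2 * (tri m : ℤ) = m * (m + 1) := by
  unfold tri
  have h1 : 0 ≤ m * (m + 1) := by
    rcases le_or_gt 0 m with h | h
    · positivity
    · nlinarith
  have h2 : Even (m * (m + 1)) := Int.even_mul_succ_self m
  rw [Int.even_iff] at h2
  omega

theorem finite_of_bound (e : ℤ → ℕ) (h : ∀ i : ℤ, i.natAbs ≤ e i + 1) (n : ℕ) :
    {i : ℤ | e i = n}.Finite := by
  refine (Set.finite_Icc (-(n : ℤ) - 1) (n + 1)).subset ?_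
  intro i hi
  simp only [Set.mem_ofPred_eq] at hi
  rw [Set.mem_Icc]
  have := h i
  omega

theorem tri_bound (i : ℤ) : i.natAbs ≤ tri i + 1 := by
  have h := two_tri i
  have : |i| ≤ tri i + 1 := by
    rw [abs_le]
    constructor <;> nlinarith [sq_nonneg (i : ℤ), sq_nonneg (i - 1), sq_nonneg (i + 1)]
  rw [Int.abs_eq_natAbs] at this
  omega

theorem pent_bound (i : ℤ) : i.natAbs ≤ pentagonal i + 1 := by
  have h := two_mul_natCast_pentagonal i
  have : |i| ≤ pentagonal i + 1 := by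
    rw [abs_le]
    constructor <;> nlinarith [sq_nonneg (i : ℤ), sq_nonneg (i - 1), sq_nonneg (i + 1)]
  rw [Int.abs_eq_natAbs] at this
  omega

theorem sq_bound (i : ℤ) : i.natAbs ≤ i.natAbs ^ 2 + 1 := by
  nlinarith [sq_nonneg ((i.natAbs : ℤ) - 1)]

/-- Jacobi's series -/
noncomputable def T1 : ℤ⟦X⟧ := ∑' m : ℤ, monomial (tri m) (sg m * m)

theorem hasSum_T1 : HasSum (fun m : ℤ => (monomial (tri m) (sg m * m) : ℤ⟦X⟧)) T1 :=
  (summable_monomial _ _ (finite_of_bound _ tri_bound)).hasSum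

theorem tri_nat (n : ℕ) : tri (n : ℤ) = (n + 1).choose 2 := by
  have h1 := two_tri n
  have h2 := Pool.Agent.Y246.Z700.two_tri n
  have h3 : (2 * tri (n : ℤ) : ℤ) = (2 * (n + 1).choose 2 : ℕ) := by
    rw [h1, h2]; push_cast; ring
  push_cast at h3
  omega

theorem tri_neg (m : ℤ) : tri (-(m + 1)) = tri m := by
  have h1 := two_tri m
  have h2 := two_tri (-(m + 1))
  have : 2 * (tri (-(m + 1)) : ℤ) = 2 * (tri m : ℤ) := by
    rw [h1, h2]; ring
  omega

theorem jacobi : E1 ^ 3 = T1 := by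
  have h := hasSum_T1.nat_add_neg_add_one
  have h2 := h.tendsto_sum_nat.comp (tendsto_add_atTop_nat 1)
  have h3 : Tendsto (fun n => P (X : ℤ⟦X⟧) n ^ 3) atTop (𝓝 (E1 ^ 3)) := tendsto_P.pow 3
  refine tendsto_of_dvd h3 h2 fun n => ?_
  obtain ⟨g, hg⟩ := Pool.Agent.Y246.Z700.jac_dvd n
  have h4 := congrArg (fun p : Polynomial ℤ => (p : ℤ⟦X⟧)) hg
  simp only [Polynomial.coe_mul, Polynomial.coe_pow, Polynomial.coe_X] at h4
  refine ⟨(g : ℤ⟦X⟧), ?_⟩
  rw [← h4]
  have e1 : ((Pool.Agent.Y246.Z700.PP n : Polynomial ℤ) : ℤ⟦X⟧) = P (X : ℤ⟦X⟧) n := by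
    unfold Pool.Agent.Y246.Z700.PP P
    rw [← Polynomial.coeToPowerSeries.ringHom_apply, map_prod]
    refine Finset.prod_congr rfl fun j _ => ?_
    simp
  rw [Polynomial.coe_sub, Polynomial.coe_pow, e1]
  congr 1
  simp only [Function.comp]
  rw [← Polynomial.coeToPowerSeries.ringHom_apply, map_sum]
  refine Finset.sum_congr rfl fun k _ => ?_
  rw [tri_neg, tri_nat, ← map_add]
  have e2 : sg (k : ℤ) * k + sg (-((k : ℤ) + 1)) * (-((k : ℤ) + 1)) = (-1) ^ k * (2 * k + 1) := by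
    rw [sg_neg, sg_add, show sg 1 = -1 by decide, ← sg_natAbs (k : ℤ), Int.natAbs_natCast]
    ring
  rw [e2, monomial_eq_C_mul_X_pow]
  simp only [map_mul, map_pow, map_neg, map_one, map_add, map_natCast, map_ofNat]
  simp

/-- the third series -/
noncomputable def T3 : ℤ⟦X⟧ := ∑' m : ℤ, monomial (pentagonal (-m)) (6 * m + 1)

theorem finite_neg (e : ℤ → ℕ) (h : ∀ i : ℤ, i.natAbs ≤ e i + 1) (n : ℕ) :
    {i : ℤ | e (-i) = n}.Finite :=
  finite_of_bound (fun i => e (-i)) (fun i => by have := h (-i); rwa [Int.natAbs_neg] at this) n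

theorem hasSum_T3 : HasSum (fun m : ℤ => (monomial (pentagonal (-m)) (6 * m + 1) : ℤ⟦X⟧)) T3 :=
  (summable_monomial _ _ (finite_neg _ pent_bound)).hasSum

theorem hasSum_E1 : HasSum (fun m : ℤ => (monomial (pentagonal m) (sg m) : ℤ⟦X⟧)) E1 := by
  have h := WithPiTopology.hasSum_pentagonalSeries ℤ
  have e : (fun m : ℤ => (monomial (pentagonal m) (sg m) : ℤ⟦X⟧)) =
      fun k : ℤ => ((Int.negOnePow k : ℤˣ) : ℤ⟦X⟧) * X ^ pentagonal k := by
    funext m
    rw [monomial_eq_C_mul_X_pow, ← sg_negOnePow]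
    simp
  rw [e]
  exact h

theorem hasSum_E2 : HasSum (fun m : ℤ => (monomial (2 * pentagonal m) (sg m) : ℤ⟦X⟧)) E2 := by
  have h : HasSum (fun m : ℤ => expand (R := ℤ) 2 two_ne_zero
      (monomial (pentagonal m) (sg m) : ℤ⟦X⟧)) E2 :=
    hasSum_E1.map (expand (R := ℤ) 2 two_ne_zero) (continuous_expand 2 two_ne_zero)
  simpa using h

theorem hasSum_E2' : HasSum (fun m : ℤ => (monomial (2 * pentagonal (-m)) (sg m) : ℤ⟦X⟧)) E2 := by
  have h := (Equiv.neg ℤ).hasSum_iff.2 hasSum_E2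
  simpa [Function.comp_def, sg_neg] using h

theorem zero_of_neg {f : ℤ → ℤ⟦X⟧} {a : ℤ⟦X⟧} (e : ℤ ≃ ℤ) (h : HasSum f a)
    (h2 : ∀ m, f (e m) = - f m) : a = 0 := by
  have h3 := e.hasSum_iff.2 h
  have h4 : HasSum (fun m => - f m) a := by
    convert h3 using 2 with m
    exact (h2 m).symm
  have h5 := h4.unique h.neg
  have h6 : a + a = 0 := by
    nth_rewrite 1 [h5]
    ring
  ext n
  have h7 := congrArg (coeff n) h6
  rw [map_add, map_zero] at h7
  rw [map_zero]
  omega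

theorem hasSum_N : HasSum (fun n : ℤ => (monomial (n.natAbs ^ 2) (sg n * n) : ℤ⟦X⟧)) 0 := by
  have h := (summable_monomial (fun n : ℤ => sg n * n) _ (finite_of_bound _ sq_bound)).hasSum
  have h2 := zero_of_neg (Equiv.neg ℤ) h (fun m => by
    simp only [Equiv.neg_apply, Int.natAbs_neg, sg_neg]
    rw [mul_neg, map_neg])
  rw [h2] at h
  exact h

/-- exponents `3j²-3j` -/
def ej (j : ℤ) : ℕ := (3 * j ^ 2 - 3 * j).toNat

theorem ej_cast (j : ℤ) : (ej j : ℤ) = 3 * j ^ 2 - 3 * j := by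
  unfold ej
  rw [Int.toNat_of_nonneg]
  rcases le_or_gt j 0 with h | h
  · nlinarith
  · nlinarith

theorem ej_bound (j : ℤ) : j.natAbs ≤ ej j + 1 := by
  have h := ej_cast j
  have : |j| ≤ ej j + 1 := by
    rw [abs_le]
    constructor <;> nlinarith [sq_nonneg (j : ℤ), sq_nonneg (j - 1), sq_nonneg (j + 1)]
  rw [Int.abs_eq_natAbs] at this
  omega

theorem hasSum_V : HasSum (fun j : ℤ => (monomial (ej j) (sg j) : ℤ⟦X⟧)) 0 := by
  have h := (summable_monomial (fun n : ℤ => sg n) _ (finite_of_bound _ ej_bound)).hasSum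
  have h2 := zero_of_neg (Equiv.subLeft (1 : ℤ)) h (fun m => by
    have e1 : ej ((Equiv.subLeft (1 : ℤ)) m) = ej m := by
      have h1 := ej_cast m
      have h2 := ej_cast ((Equiv.subLeft (1 : ℤ)) m)
      rw [Equiv.subLeft_apply] at h2 ⊢
      have : (ej (1 - m) : ℤ) = ej m := by rw [h1, h2]; ring
      exact_mod_cast this
    have e2 : sg ((Equiv.subLeft (1 : ℤ)) m) = - sg m := by
      rw [Equiv.subLeft_apply, sub_eq_add_neg, sg_add, sg_neg, show sg 1 = -1 by decide]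
      ring
    rw [e1, e2, map_neg])
  rw [h2] at h
  exact h

theorem finite_prod (e e' : ℤ → ℕ) (h : ∀ i : ℤ, i.natAbs ≤ e i + 1)
    (h' : ∀ i : ℤ, i.natAbs ≤ e' i + 1) (n : ℕ) : {p : ℤ × ℤ | e p.1 + e' p.2 = n}.Finite := by
  refine ((Set.finite_Icc (-(n : ℤ) - 1) (n + 1)).prod
    (Set.finite_Icc (-(n : ℤ) - 1) (n + 1))).subset ?_
  rintro ⟨a, b⟩ hi
  simp only [Set.mem_ofPred_eq] at hi
  rw [Set.mem_prod, Set.mem_Icc, Set.mem_Icc]
  have := h a
  have := h' b
  simp only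
  omega

theorem hasSum_mul (c c' : ℤ → ℤ) (e e' : ℤ → ℕ) (h : ∀ i : ℤ, i.natAbs ≤ e i + 1)
    (h' : ∀ i : ℤ, i.natAbs ≤ e' i + 1) {a b : ℤ⟦X⟧}
    (ha : HasSum (fun i : ℤ => (monomial (e i) (c i) : ℤ⟦X⟧)) a)
    (hb : HasSum (fun i : ℤ => (monomial (e' i) (c' i) : ℤ⟦X⟧)) b) :
    HasSum (fun p : ℤ × ℤ => (monomial (e p.1 + e' p.2) (c p.1 * c' p.2) : ℤ⟦X⟧)) (a * b) := by
  have he : (fun p : ℤ × ℤ => (monomial (e p.1) (c p.1) : ℤ⟦X⟧) * monomial (e' p.2) (c' p.2)) =
      fun p : ℤ × ℤ => (monomial (e p.1 + e' p.2) (c p.1 * c' p.2) : ℤ⟦X⟧) :=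
    funext fun p => monomial_mul_monomial _ _ _ _
  have hs : Summable (fun p : ℤ × ℤ => (monomial (e p.1) (c p.1) : ℤ⟦X⟧) *
      monomial (e' p.2) (c' p.2)) := by
    rw [he]
    exact summable_monomial (fun p : ℤ × ℤ => c p.1 * c' p.2) (fun p => e p.1 + e' p.2)
      (finite_prod e e' h h')
  have := ha.mul hb hs
  rw [he] at this
  exact this

/-- the double series -/
noncomputable def F (p : ℤ × ℤ) : ℤ⟦X⟧ :=
  monomial (tri p.1 + p.2.natAbs ^ 2) (sg (p.1 + p.2) * (p.1 + 2 * p.2))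

theorem hasSum_phi' : HasSum (fun i : ℤ => (monomial (i.natAbs ^ 2) (sg i) : ℤ⟦X⟧)) phi := by
  have := hasSum_phi
  simpa only [sg_natAbs] using this

theorem hasSum_F : HasSum F (T1 * phi) := by
  have h1 := hasSum_mul (fun m => sg m * m) sg tri (fun n => n.natAbs ^ 2) tri_bound sq_bound
    hasSum_T1 hasSum_phi'
  have h2 := hasSum_mul sg (fun n => sg n * n) tri (fun n => n.natAbs ^ 2) tri_bound sq_bound
    (summable_monomial _ _ (finite_of_bound _ tri_bound)).hasSum hasSum_N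
  have h3 := h1.add (h2.mul_left 2)
  rw [mul_zero, mul_zero, add_zero] at h3
  convert h3 using 2 with p
  unfold F
  rw [sg_add]
  have : (2 : ℤ⟦X⟧) = C 2 := by simp
  rw [this, ← smul_eq_C_mul, ← map_smul, ← map_add]
  congr 1
  simp only [smul_eq_mul]
  ring

/-- the lattice map -/
def gm (r : Fin 3) (p : ℤ × ℤ) : ℤ × ℤ := (p.1 - 2 * p.2 + ((r.val : ℤ) - 1), p.1 + p.2)

theorem gm_bij : Function.Bijective (fun q : Fin 3 × (ℤ × ℤ) => gm q.1 q.2) := by
  constructor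
  · rintro ⟨⟨r, hr⟩, a, b⟩ ⟨⟨r', hr'⟩, a', b'⟩ h
    simp only [gm, Prod.mk.injEq] at h
    obtain ⟨h0, h1⟩ := h
    have h3 : r = r' := by omega
    subst h3
    have h4 : a = a' := by omega
    have h5 : b = b' := by omega
    rw [h4, h5]
  · rintro ⟨m, n⟩
    obtain ⟨r, M, hr, hM⟩ : ∃ (r : ℕ) (M : ℤ), r < 3 ∧ m + 2 * n + 1 = 3 * M + r :=
      ⟨((m + 2 * n + 1) % 3).toNat, (m + 2 * n + 1) / 3, by omega, by omega⟩
    refine ⟨(⟨r, hr⟩, (M, n - M)), ?_⟩
    simp only [gm, Prod.mk.injEq]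
    constructor
    · linarith
    · ring

theorem sg_two (M : ℤ) : sg (2 * M) = 1 := by
  unfold sg
  rw [if_pos (by omega)]

theorem F_zero (M j : ℤ) : F (gm 0 (M, j)) =
    monomial (pentagonal M + 2 * pentagonal (-j)) ((1 - 3 * M) * sg j) := by
  have e1 : tri (M - 2 * j + -1) + (M + j).natAbs ^ 2 = pentagonal M + 2 * pentagonal (-j) := by
    have h1 := two_tri (M - 2 * j + -1)
    have h2 := two_mul_natCast_pentagonal M
    have h3 := two_mul_natCast_pentagonal_neg j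
    have h4 : (((M + j).natAbs ^ 2 : ℕ) : ℤ) = (M + j) ^ 2 := by
      rw [Nat.cast_pow, Int.natCast_natAbs, sq_abs]
    have : (2 * (tri (M - 2 * j + -1) + (M + j).natAbs ^ 2 : ℕ) : ℤ) =
        2 * ((pentagonal M + 2 * pentagonal (-j) : ℕ) : ℤ) := by
      rw [Nat.cast_add, Nat.cast_add, h4, Nat.cast_mul, mul_add, mul_add, h1, h2, Nat.cast_ofNat, h3]
      ring
    omega
  have e2 : sg (M - 2 * j + -1 + (M + j)) = - sg j := by
    rw [show M - 2 * j + -1 + (M + j) = 2 * M + (-(j + 1)) by ring, sg_add, sg_two, sg_neg, sg_add,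
      show sg 1 = -1 by decide]
    ring
  unfold F gm
  simp only [Fin.val_zero, Nat.cast_zero, zero_sub]
  rw [e1, e2]
  congr 1
  ring

theorem F_one (M j : ℤ) : F (gm 1 (M, j)) =
    monomial (pentagonal (-M) + 2 * pentagonal j) ((3 * M) * sg j) := by
  have e1 : tri (M - 2 * j) + (M + j).natAbs ^ 2 = pentagonal (-M) + 2 * pentagonal j := by
    have h1 := two_tri (M - 2 * j)
    have h2 := two_mul_natCast_pentagonal_neg M
    have h3 := two_mul_natCast_pentagonal j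
    have h4 : (((M + j).natAbs ^ 2 : ℕ) : ℤ) = (M + j) ^ 2 := by
      rw [Nat.cast_pow, Int.natCast_natAbs, sq_abs]
    have : (2 * (tri (M - 2 * j) + (M + j).natAbs ^ 2 : ℕ) : ℤ) =
        2 * ((pentagonal (-M) + 2 * pentagonal j : ℕ) : ℤ) := by
      rw [Nat.cast_add, Nat.cast_add, h4, Nat.cast_mul, mul_add, mul_add, h1, h2, Nat.cast_ofNat, h3]
      ring
    omega
  have e2 : sg (M - 2 * j + (M + j)) = sg j := by
    rw [show M - 2 * j + (M + j) = 2 * M + (-j) by ring, sg_add, sg_two, sg_neg, one_mul]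
  unfold F gm
  simp only [Fin.val_one, Nat.cast_one, sub_self, add_zero]
  rw [e1, e2]
  congr 1
  ring

/-- exponents for the vanishing part -/
def eM (M : ℤ) : ℕ := 3 * tri M + 1

theorem F_two (M j : ℤ) : F (gm 2 (M, j)) =
    monomial (eM M + ej j) (-(3 * M + 1) * sg j) := by
  have e1 : tri (M - 2 * j + 1) + (M + j).natAbs ^ 2 = eM M + ej j := by
    have h1 := two_tri (M - 2 * j + 1)
    have h2 := two_tri M
    have h3 := ej_cast j
    have h4 : (((M + j).natAbs ^ 2 : ℕ) : ℤ) = (M + j) ^ 2 := by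
      rw [Nat.cast_pow, Int.natCast_natAbs, sq_abs]
    have : (2 * (tri (M - 2 * j + 1) + (M + j).natAbs ^ 2 : ℕ) : ℤ) =
        2 * ((eM M + ej j : ℕ) : ℤ) := by
      unfold eM
      rw [Nat.cast_add, Nat.cast_add, Nat.cast_add, h4, h3, Nat.cast_mul, mul_add, h1,
        Nat.cast_ofNat, Nat.cast_one]
      linear_combination (-3) * h2
    omega
  have e2 : sg (M - 2 * j + 1 + (M + j)) = - sg j := by
    rw [show M - 2 * j + 1 + (M + j) = 2 * M + (1 + -j) by ring, sg_add, sg_two, sg_add, sg_neg,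
      show sg 1 = -1 by decide]
    ring
  unfold F gm
  have e3 : (((2 : Fin 3) : ℕ) : ℤ) - 1 = 1 := by norm_num
  simp only [e3]
  rw [e1, e2]
  congr 1
  ring

/-- the pieces of the sum -/
noncomputable def piece (r : Fin 3) : ℤ⟦X⟧ :=
  match r with
  | 0 => (∑' M : ℤ, monomial (pentagonal M) (1 - 3 * M)) * E2
  | 1 => (∑' M : ℤ, monomial (pentagonal (-M)) (3 * M)) * E2
  | 2 => 0

theorem eM_bound (M : ℤ) : M.natAbs ≤ eM M + 1 := by
  have := tri_bound M
  unfold eM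
  omega

theorem hasSum_piece (r : Fin 3) : HasSum (fun c : ℤ × ℤ => F (gm r c)) (piece r) := by
  fin_cases r
  · have h := hasSum_mul (fun M => 1 - 3 * M) sg pentagonal (fun j => 2 * pentagonal (-j))
      pent_bound (fun i => by have := pent_bound (-i); rw [Int.natAbs_neg] at this; omega)
      (summable_monomial _ _ (finite_of_bound _ pent_bound)).hasSum hasSum_E2'
    have e : (fun c : ℤ × ℤ => F (gm 0 c)) = fun p : ℤ × ℤ =>
        (monomial (pentagonal p.1 + 2 * pentagonal (-p.2)) ((1 - 3 * p.1) * sg p.2) : ℤ⟦X⟧) :=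
      funext fun p => F_zero p.1 p.2
    show HasSum (fun c : ℤ × ℤ => F (gm 0 c)) (piece 0)
    rw [e]
    exact h
  · have h := hasSum_mul (fun M => 3 * M) sg (fun M => pentagonal (-M)) (fun j => 2 * pentagonal j)
      (fun i => by have := pent_bound (-i); rwa [Int.natAbs_neg] at this)
      (fun i => by have := pent_bound i; omega)
      (summable_monomial _ _ (finite_neg _ pent_bound)).hasSum hasSum_E2
    have e : (fun c : ℤ × ℤ => F (gm 1 c)) = fun p : ℤ × ℤ =>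
        (monomial (pentagonal (-p.1) + 2 * pentagonal p.2) ((3 * p.1) * sg p.2) : ℤ⟦X⟧) :=
      funext fun p => F_one p.1 p.2
    show HasSum (fun c : ℤ × ℤ => F (gm 1 c)) (piece 1)
    rw [e]
    exact h
  · have h := hasSum_mul (fun M => -(3 * M + 1)) sg eM ej eM_bound ej_bound
      (summable_monomial _ _ (finite_of_bound _ eM_bound)).hasSum hasSum_V
    have e : (fun c : ℤ × ℤ => F (gm 2 c)) = fun p : ℤ × ℤ =>
        (monomial (eM p.1 + ej p.2) (-(3 * p.1 + 1) * sg p.2) : ℤ⟦X⟧) :=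
      funext fun p => F_two p.1 p.2
    rw [mul_zero] at h
    show HasSum (fun c : ℤ × ℤ => F (gm 2 c)) (piece 2)
    rw [e]
    exact h

theorem T3_eq : T3 = (∑' M : ℤ, monomial (pentagonal M) (1 - 3 * M)) +
    ∑' M : ℤ, (monomial (pentagonal (-M)) (3 * M) : ℤ⟦X⟧) := by
  have h1 := (summable_monomial (fun M : ℤ => 1 - 3 * M) _ (finite_of_bound _ pent_bound)).hasSum
  have h2 := (summable_monomial (fun M : ℤ => 3 * M) _ (finite_neg _ pent_bound)).hasSum
  have h3 := ((Equiv.neg ℤ).hasSum_iff.2 h1).add h2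
  refine hasSum_T3.unique ?_
  convert h3 using 2 with m
  simp only [Function.comp, Equiv.neg_apply]
  rw [← map_add]
  congr 1
  ring

theorem key : T1 * phi = E2 * T3 := by
  have h1 := (Equiv.ofBijective _ gm_bij).hasSum_iff (f := F) |>.2 hasSum_F
  have hF : HasSum (fun q : Fin 3 × (ℤ × ℤ) => F (gm q.1 q.2)) (T1 * phi) := h1
  have h2 := hF.prod_fiberwise hasSum_piece
  have h3 := (hasSum_fintype piece).unique h2
  rw [← h3, Fin.sum_univ_three, T3_eq]
  simp only [piece]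
  ring

theorem five : E1 ^ 5 = E2 ^ 2 * T3 := by
  calc E1 ^ 5 = E1 ^ 3 * (E1 * E1) := by ring
    _ = E2 * (T1 * phi) := by rw [jacobi, gauss]; ring
    _ = _ := by rw [key]; ring

end Pool.Agent.Q107.OD
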