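import Mathlib

/-!
# Gauss' identity for squares as an identity of integer power series

`E1 * E1 = E2 * φ`, where `E1 = ∏ (1 - q^n)`, `E2 = ∏ (1 - q^(2n))`, `φ = ∑ (-1)^n q^(n^2)`.
The proof uses Shanks' finite identity.
-/

set_option autoImplicit false

namespace Pool.Agent.Q107.OD

open Finset PowerSeries Filter Topology
open scoped PowerSeries.WithPiTopology

/-! ### the finite identity (Shanks) -/

section finite

variable {R : Type*} [CommRing R]

/-- `∏_{k ≤ n} (1 - x^k)` -/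
def P (x : R) (n : ℕ) : R := ∏ j ∈ range n, (1 - x ^ (j + 1))

/-- `∏_{k ≤ n} (1 + x^k)` -/
def M (x : R) (n : ℕ) : R := ∏ j ∈ range n, (1 + x ^ (j + 1))

/-- `∏_{s < k ≤ n} (1 - x^k)` -/
def Rr (x : R) (n s : ℕ) : R := ∏ j ∈ Ico s n, (1 - x ^ (j + 1))

/-- partial theta sum `1 + 2 ∑_{s ≤ n} (-1)^s x^(s^2)`, -/
def A (x : R) (n : ℕ) : R := 1 + 2 * ∑ s ∈ range n, (-1) ^ (s + 1) * x ^ ((s + 1) ^ 2)

/-- the error term -/
def D (x : R) (n : ℕ) : R :=
  ∑ s ∈ range n, (-1) ^ (s + 1) * x ^ ((s + 1) * (n + 1)) * Rr x n (s + 1) * M x s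

theorem P_succ (x : R) (n : ℕ) : P x (n + 1) = P x n * (1 - x ^ (n + 1)) := by
  unfold P; rw [prod_range_succ]

theorem M_succ (x : R) (n : ℕ) : M x (n + 1) = M x n * (1 + x ^ (n + 1)) := by
  unfold M; rw [prod_range_succ]

theorem Rr_succ (x : R) {n s : ℕ} (h : s ≤ n) : Rr x (n + 1) s = Rr x n s * (1 - x ^ (n + 1)) := by
  unfold Rr; rw [prod_Ico_succ_top h]

theorem Rr_self (x : R) (n : ℕ) : Rr x n n = 1 := by
  unfold Rr; simp

theorem Rr_zero (x : R) (n : ℕ) : Rr x n 0 = P x n := by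
  unfold Rr P; simp

theorem Rr_bot (x : R) {n s : ℕ} (h : s < n) : Rr x n s = (1 - x ^ (s + 1)) * Rr x n (s + 1) := by
  unfold Rr; rw [prod_eq_prod_Ico_succ_bot h]

theorem D_step (x : R) (n : ℕ) : D x (n + 1) = (1 + x ^ (n + 1)) * D x n + x ^ (n + 1) * P x n +
    (-1) ^ (n + 1) * x ^ ((n + 1) ^ 2) * M x (n + 1) := by
  have tel : ∀ m, m ≤ n →
      ∑ s ∈ range m, ((-1) ^ (s + 1) * x ^ ((s + 1) * (n + 1 + 1)) * Rr x (n + 1) (s + 1) * M x s -
        (1 + x ^ (n + 1)) * ((-1) ^ (s + 1) * x ^ ((s + 1) * (n + 1)) * Rr x n (s + 1) * M x s)) =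
      x ^ (n + 1) * P x n - (-1) ^ m * x ^ ((n + 1) * (m + 1)) * Rr x n m * M x m := by
    intro m
    induction m with
    | zero =>
      intro _
      simp [Rr_zero, M]
    | succ m ih =>
      intro hm
      rw [sum_range_succ, ih (by omega), Rr_succ x (by omega : m + 1 ≤ n), Rr_bot x (by omega : m < n),
        M_succ]
      have e1 : x ^ ((m + 1) * (n + 1 + 1)) = x ^ ((n + 1) * (m + 1)) * x ^ (m + 1) := by
        rw [← pow_add]; congr 1; ring
      have e2 : x ^ ((m + 1) * (n + 1)) = x ^ ((n + 1) * (m + 1)) := by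
        congr 1; ring
      have e3 : x ^ ((n + 1) * (m + 1 + 1)) = x ^ ((n + 1) * (m + 1)) * x ^ (n + 1) := by
        rw [← pow_add]; congr 1
      rw [e1, e2, e3, pow_succ (-1 : R) m]
      ring
  have h := tel n le_rfl
  rw [sum_sub_distrib, ← mul_sum] at h
  have e4 : x ^ ((n + 1) ^ 2) = x ^ ((n + 1) * (n + 1)) := by rw [sq]
  have e5 : x ^ ((n + 1) * (n + 1 + 1)) = x ^ ((n + 1) * (n + 1)) * x ^ (n + 1) := by
    rw [← pow_add]; congr 1
  unfold D
  rw [sum_range_succ, e4, M_succ, Rr_self, e5, pow_succ (-1 : R) n]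
  rw [Rr_self] at h
  linear_combination h

theorem shanks (x : R) (n : ℕ) : A x n * M x n = P x n + 2 * D x n := by
  induction n with
  | zero => simp [A, M, P, D]
  | succ n ih =>
    have hA : A x (n + 1) = A x n + 2 * ((-1) ^ (n + 1) * x ^ ((n + 1) ^ 2)) := by
      unfold A; rw [sum_range_succ]; ring
    rw [D_step, P_succ, hA]
    have e := M_succ x n
    linear_combination (1 + x ^ (n + 1)) * ih + (A x n) * e

theorem D_dvd (x : R) (n : ℕ) : x ^ (n + 1) ∣ D x n := by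
  unfold D
  refine dvd_sum fun s _ => ?_
  have : x ^ (n + 1) ∣ x ^ ((s + 1) * (n + 1)) := pow_dvd_pow _ (by nlinarith)
  exact ((this.mul_left _).mul_right _).mul_right _

end finite

/-! ### power series -/

/-- Euler's product -/
noncomputable def E1 : ℤ⟦X⟧ := pentagonalSeries ℤ

/-- Euler's product in `q²` -/
noncomputable def E2 : ℤ⟦X⟧ := expand 2 two_ne_zero E1

theorem summable_monomial {ι : Type*} (c : ι → ℤ) (e : ι → ℕ) (h : ∀ n, {i | e i = n}.Finite) :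
    Summable (fun i => (monomial (e i) (c i) : ℤ⟦X⟧)) := by
  rw [WithPiTopology.summable_iff_summable_coeff]
  intro n
  refine summable_of_hasFiniteSupport ((h n).subset ?_)
  intro i hi
  simp only [Function.mem_support, coeff_monomial, ne_eq, ite_eq_right_iff, not_forall] at hi
  exact hi.1.symm

theorem tendsto_of_dvd {f g : ℕ → ℤ⟦X⟧} {a b : ℤ⟦X⟧} (hf : Tendsto f atTop (𝓝 a))
    (hg : Tendsto g atTop (𝓝 b)) (h : ∀ n, (X : ℤ⟦X⟧) ^ (n + 1) ∣ f n - g n) : a = b := by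
  have h1 : Tendsto (fun n => f n - g n) atTop (𝓝 (a - b)) := hf.sub hg
  have h2 : Tendsto (fun n => f n - g n) atTop (𝓝 0) := by
    rw [WithPiTopology.tendsto_iff_coeff_tendsto]
    intro d
    refine tendsto_nhds_of_eventually_eq ?_
    filter_upwards [eventually_ge_atTop d] with n hn
    rw [X_pow_dvd_iff.1 (h n) d (by omega), map_zero]
  have := tendsto_nhds_unique h1 h2
  exact sub_eq_zero.1 this

theorem hasProd_E1 : HasProd (fun n => (1 - X ^ (n + 1) : ℤ⟦X⟧)) E1 :=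
  WithPiTopology.hasProd_one_sub_X_pow ℤ

theorem continuous_expand (p : ℕ) (hp : p ≠ 0) {R : Type*} [CommRing R] [TopologicalSpace R] :
    Continuous (expand (R := R) p hp) := by
  rw [continuous_iff_continuousAt]
  intro f
  unfold ContinuousAt
  rw [WithPiTopology.tendsto_iff_coeff_tendsto]
  intro d
  simp only [coeff_expand]
  split_ifs
  · exact (WithPiTopology.continuous_coeff R _).tendsto f
  · exact tendsto_const_nhds

theorem hasProd_E2 : HasProd (fun n => (1 - X ^ (2 * (n + 1)) : ℤ⟦X⟧)) E2 := by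
  have h : HasProd (fun n => expand (R := ℤ) 2 two_ne_zero (1 - X ^ (n + 1) : ℤ⟦X⟧)) E2 :=
    hasProd_E1.map (expand (R := ℤ) 2 two_ne_zero) (continuous_expand 2 two_ne_zero)
  simpa [← pow_mul] using h

theorem tendsto_P : Tendsto (fun n => P (X : ℤ⟦X⟧) n) atTop (𝓝 E1) := hasProd_E1.tendsto_prod_nat

theorem multipliable_M : Multipliable (fun n => (1 + X ^ (n + 1) : ℤ⟦X⟧)) := by
  refine WithPiTopology.multipliable_one_add_of_tendsto_order_atTop_nhds_top ℤ ?_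
  simp_rw [order_X_pow]
  exact ENat.tendsto_natCast_nhds_top.comp (tendsto_add_atTop_nat _)

/-- `∏ (1 + q^n)` -/
noncomputable def Mi : ℤ⟦X⟧ := ∏' n, (1 + X ^ (n + 1) : ℤ⟦X⟧)

theorem hasProd_Mi : HasProd (fun n => (1 + X ^ (n + 1) : ℤ⟦X⟧)) Mi := multipliable_M.hasProd

theorem tendsto_M : Tendsto (fun n => M (X : ℤ⟦X⟧) n) atTop (𝓝 Mi) := hasProd_Mi.tendsto_prod_nat

theorem E1_mul_Mi : E1 * Mi = E2 := by
  have h := hasProd_E1.mul hasProd_Mi
  have h2 : HasProd (fun n => (1 - X ^ (2 * (n + 1)) : ℤ⟦X⟧)) (E1 * Mi) := by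
    convert h using 2
    ring
  exact h2.unique hasProd_E2

/-- the theta series -/
theorem finite_sq (n : ℕ) : {i : ℤ | i.natAbs ^ 2 = n}.Finite := by
  refine (Set.finite_Icc (-(n : ℤ)) n).subset ?_
  intro i hi
  simp only [Set.mem_ofPred_eq] at hi
  rw [Set.mem_Icc]
  have : i.natAbs ≤ n := by nlinarith
  omega

noncomputable def phi : ℤ⟦X⟧ := ∑' i : ℤ, monomial (i.natAbs ^ 2) ((-1) ^ i.natAbs : ℤ)

theorem hasSum_phi : HasSum (fun i : ℤ => (monomial (i.natAbs ^ 2) ((-1) ^ i.natAbs : ℤ) : ℤ⟦X⟧))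
    phi := (summable_monomial _ _ finite_sq).hasSum

theorem tendsto_A : Tendsto (fun n => A (X : ℤ⟦X⟧) n) atTop (𝓝 phi) := by
  have h := hasSum_phi.nat_add_neg
  have h2 := h.tendsto_sum_nat.comp (tendsto_add_atTop_nat 1)
  have h3 : Tendsto (fun n => (∑ s ∈ range (n + 1), ((monomial ((s : ℤ).natAbs ^ 2)
      ((-1) ^ (s : ℤ).natAbs : ℤ) : ℤ⟦X⟧) + monomial ((-(s : ℤ)).natAbs ^ 2)
      ((-1) ^ (-(s : ℤ)).natAbs : ℤ))) - 1) atTop (𝓝 phi) := by
    have h4 := h2.sub_const (1 : ℤ⟦X⟧)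
    have e : phi + (monomial (Int.natAbs 0 ^ 2)) ((-1 : ℤ) ^ Int.natAbs 0) - 1 = phi := by
      have : (monomial (Int.natAbs 0 ^ 2)) ((-1 : ℤ) ^ Int.natAbs 0) = (1 : ℤ⟦X⟧) := by
        simp
      rw [this]
      ring
    rw [e] at h4
    exact h4
  convert h3 using 2 with n
  rw [sum_range_succ', A]
  simp only [Int.natAbs_neg, Int.natAbs_natCast, monomial_eq_C_mul_X_pow]
  rw [mul_sum]
  have : ∀ s ∈ range n, (C ((-1 : ℤ) ^ (s + 1)) * X ^ ((s + 1) ^ 2) + C ((-1) ^ (s + 1)) * X ^ ((s + 1) ^ 2) : ℤ⟦X⟧)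
    = 2 * ((-1) ^ (s + 1) * X ^ ((s + 1) ^ 2)) := by
    intro s _
    rw [map_pow, map_neg, map_one]
    ring
  rw [sum_congr rfl this]
  simp
  ring

theorem phi_mul_Mi : phi * Mi = E1 := by
  refine tendsto_of_dvd (tendsto_A.mul tendsto_M) tendsto_P fun n => ?_
  rw [shanks]
  have := D_dvd (X : ℤ⟦X⟧) n
  rw [add_sub_cancel_left]
  exact this.mul_left _

/-- Gauss' identity -/
theorem gauss : E1 * E1 = E2 * phi := by
  rw [← E1_mul_Mi]
  nth_rewrite 2 [← phi_mul_Mi]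
  ring

end Pool.Agent.Q107.OD
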