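import Pool.Agent.Q107.OD.Double

/-!
# The generating function of the signed part sums of odd-distinct partitions
-/

set_option autoImplicit false

namespace Pool.Agent.Q107.OD

open Finset PowerSeries Filter Topology
open scoped PowerSeries.WithPiTopology

/-- no odd part is repeated -/
def OddDistinct {m : ℕ} (p : m.Partition) : Prop := ∀ k : ℕ, Odd k → p.parts.count k ≤ 1

/-- the sum of the odd parts minus the sum of the even parts -/
def wt {m : ℕ} (p : m.Partition) : ℤ :=
  (p.parts.map fun k : ℕ => if Odd k then (k : ℤ) else -(k : ℤ)).sum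

open Classical in
/-- the signed part sum over all odd-distinct partitions of `m` -/
noncomputable def S (m : ℕ) : ℤ := ∑ p : m.Partition with OddDistinct p, wt p

/-- dual numbers -/
abbrev R : Type := TrivSqZeroExt ℤ ℤ

/-- `1 + aε` -/
def u (a : ℤ) : R := (1, a)

theorem u_fst (a : ℤ) : (u a).fst = 1 := rfl
theorem u_snd (a : ℤ) : (u a).snd = a := rfl

theorem u_mul (a b : ℤ) : u a * u b = u (a + b) := by
  apply TrivSqZeroExt.ext
  · simp [u_fst]
  · simp [u_fst, u_snd]; ring

theorem u_zero : u 0 = 1 := by
  apply TrivSqZeroExt.ext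
  · simp [u_fst]
  · simp [u_snd]

theorem u_pow (a : ℤ) (n : ℕ) : u a ^ n = u (n * a) := by
  induction n with
  | zero => simp [u_zero]
  | succ n ih => rw [pow_succ, ih, u_mul]; congr 1; push_cast; ring

theorem u_add_neg (a : ℤ) : u a + u (-a) = 2 := by
  apply TrivSqZeroExt.ext
  · simp [u_fst]; rfl
  · simp [u_snd]; rfl

theorem u_prod {ι : Type*} (s : Finset ι) (a : ι → ℤ) : ∏ i ∈ s, u (a i) = u (∑ i ∈ s, a i) := by
  classical
  induction s using Finset.induction_on with
  | empty => simp [u_zero]
  | insert b s hb ih => rw [prod_insert hb, sum_insert hb, ih, u_mul]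

/-- the character -/
noncomputable def ff (i c : ℕ) : R :=
  if Odd i then (if c = 1 then - u i else 0) else u (-(i * c : ℕ))

theorem prod_ff_of {m : ℕ} (p : m.Partition) (h : OddDistinct p) :
    p.parts.toFinsupp.prod ff = (-1) ^ m * u (wt p) := by
  have h1 : ∀ i ∈ p.parts.toFinset, ff i (p.parts.count i) =
      (-1) ^ (p.parts.count i * i) * u (p.parts.count i • (if Odd i then (i : ℤ) else -(i : ℤ))) := by
    intro i hi
    have hc : 1 ≤ p.parts.count i := Multiset.one_le_count_iff_mem.2 (Multiset.mem_toFinset.1 hi)
    unfold ff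
    split_ifs with ho h2
    · rw [h2, one_mul, ho.neg_one_pow, one_smul]; ring
    · have := h i ho
      omega
    · rw [Nat.not_odd_iff_even] at ho
      rw [Even.neg_one_pow (ho.mul_left _), one_mul]
      congr 1
      simp
      ring
  rw [Finsupp.prod]
  simp_rw [Multiset.toFinsupp_support, Multiset.toFinsupp_apply]
  rw [prod_congr rfl h1, prod_mul_distrib, prod_pow_eq_pow_sum, u_prod, wt,
    Finset.sum_multiset_map_count]
  congr 2
  have := p.parts_sum
  rw [← Multiset.map_id p.parts, Finset.sum_multiset_map_count] at this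
  simpa using this

theorem prod_ff_of_not {m : ℕ} (p : m.Partition) (h : ¬ OddDistinct p) :
    p.parts.toFinsupp.prod ff = 0 := by
  unfold OddDistinct at h
  push Not at h
  obtain ⟨k, hk, hc⟩ := h
  rw [Finsupp.prod]
  simp_rw [Multiset.toFinsupp_support, Multiset.toFinsupp_apply]
  refine prod_eq_zero (i := k) ?_ ?_
  · rw [Multiset.mem_toFinset, ← Multiset.one_le_count_iff_mem]; omega
  · unfold ff
    rw [if_pos hk, if_neg (by omega)]

theorem coeff_gen (m : ℕ) : (coeff m (Nat.Partition.genFun ff)).snd = (-1) ^ m * S m := by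
  classical
  rw [Nat.Partition.coeff_genFun]
  unfold S
  rw [mul_sum, sum_filter]
  have h : ∀ p : m.Partition, (p.parts.toFinsupp.prod ff) =
      if OddDistinct p then (-1) ^ m * u (wt p) else 0 := by
    intro p
    split_ifs with h
    · exact prod_ff_of p h
    · exact prod_ff_of_not p h
  simp_rw [h]
  rw [TrivSqZeroExt.snd_sum]
  refine sum_congr rfl fun p _ => ?_
  split_ifs
  · rcases neg_one_pow_eq_or R m with h1 | h1 <;> rcases neg_one_pow_eq_or ℤ m with h2 | h2
    · rw [h1, h2]; simp [u_snd]
    · exfalso
      have := congrArg TrivSqZeroExt.fst h1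
      simp at this
      rw [h2] at this
      norm_num at this
    · exfalso
      have := congrArg TrivSqZeroExt.fst h1
      simp at this
      rw [h2] at this
      norm_num at this
    · rw [h1, h2]; simp [u_snd]
  · simp

end Pool.Agent.Q107.OD
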