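import Pool.Agent.Q107.OD.Gen

/-!
# The product formula and the differential identity
-/

set_option autoImplicit false

namespace Pool.Agent.Q107.OD

open Finset PowerSeries Filter Topology
open scoped PowerSeries.WithPiTopology

/-- Euler's product over the dual numbers -/
noncomputable def E1R : R⟦X⟧ := pentagonalSeries R

theorem hasProd_E1R : HasProd (fun n => (1 - X ^ (n + 1) : R⟦X⟧)) E1R :=
  WithPiTopology.hasProd_one_sub_X_pow R

theorem continuous_rescale (a : R) : Continuous (rescale a : R⟦X⟧ → R⟦X⟧) := by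
  rw [continuous_iff_continuousAt]
  intro f
  unfold ContinuousAt
  rw [WithPiTopology.tendsto_iff_coeff_tendsto]
  intro d
  simp only [coeff_rescale]
  exact tendsto_const_nhds.mul ((WithPiTopology.continuous_coeff R d).tendsto f)

theorem hasProd_rescale : HasProd (fun n : ℕ => (1 - C (u ((n : ℤ) + 1)) * X ^ (n + 1) : R⟦X⟧))
    (rescale (u 1) E1R) := by
  have h := hasProd_E1R.map (rescale (u 1)) (continuous_rescale (u 1))
  have e : (fun n : ℕ => (1 - C (u ((n : ℤ) + 1)) * X ^ (n + 1) : R⟦X⟧)) =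
      (rescale (u 1)) ∘ (fun n : ℕ => (1 - X ^ (n + 1) : R⟦X⟧)) := by
    funext n
    simp only [Function.comp, map_sub, map_one, map_pow, rescale_X, mul_pow]
    rw [← map_pow, u_pow]
    congr 4
    push_cast
    ring
  rw [e]
  exact h

/-- Euler's product in `q²` over the dual numbers -/
noncomputable def E2R : R⟦X⟧ := expand 2 two_ne_zero E1R

theorem hasProd_E2R : HasProd (fun i => (if Even (i + 1) then 1 - X ^ (i + 1) else 1 : R⟦X⟧)) E2R := by
  have h : HasProd (fun n => expand (R := R) 2 two_ne_zero (1 - X ^ (n + 1) : R⟦X⟧)) E2R :=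
    hasProd_E1R.map (expand (R := R) 2 two_ne_zero) (continuous_expand 2 two_ne_zero)
  have hinj : Function.Injective (fun n : ℕ => 2 * n + 1) := fun a b h => by simpa using h
  have e : (fun i => (if Even (i + 1) then 1 - X ^ (i + 1) else 1 : R⟦X⟧)) ∘ (fun n : ℕ => 2 * n + 1) =
      fun n => expand (R := R) 2 two_ne_zero (1 - X ^ (n + 1) : R⟦X⟧) := by
    funext n
    simp only [Function.comp]
    rw [if_pos ⟨n + 1, by ring⟩]
    simp only [map_sub, map_one, map_pow, expand_X, ← pow_mul]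
    congr 2
  rw [← e, hinj.hasProd_iff] at h
  · exact h
  · intro x hx
    rw [if_neg]
    rintro ⟨k, hk⟩
    exact hx ⟨k - 1, by simp only; omega⟩

theorem geo_aux (a : R) (k : ℕ) (hk : 0 < k) :
    (1 + ∑' j, (C a * X ^ k : R⟦X⟧) ^ (j + 1)) * (1 - C a * X ^ k) = 1 := by
  have hc : (C a * X ^ k : R⟦X⟧).constantCoeff = 0 := by
    rw [map_mul, map_pow, constantCoeff_X, zero_pow hk.ne', mul_zero]
  have h := (WithPiTopology.summable_pow_of_constantCoeff_eq_zero hc).tsum_eq_zero_add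
  rw [pow_zero] at h
  rw [← h]
  exact WithPiTopology.tsum_pow_mul_one_sub_of_constantCoeff_eq_zero hc

theorem even_case (n : ℕ) (hn : Even (n + 1)) : (1 - C (u ((n : ℤ) + 1)) * X ^ (n + 1) : R⟦X⟧) =
      (1 + ∑' (j : ℕ), ff (n + 1) (j + 1) • X ^ ((n + 1) * (j + 1))) *
      ((1 - X ^ (n + 1)) * (1 - X ^ (n + 1))) := by
  have h2 : ∀ j : ℕ, ff (n + 1) j • (X : R⟦X⟧) ^ ((n + 1) * j) =
      (C (u (-((n : ℤ) + 1))) * X ^ (n + 1) : R⟦X⟧) ^ j := by
    intro j
    unfold ff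
    rw [if_neg (Nat.not_odd_iff_even.2 hn), mul_pow, ← pow_mul, ← map_pow, u_pow,
      smul_eq_C_mul]
    congr 3
    push_cast
    ring
  have hs : (∑' j : ℕ, ff (n + 1) (j + 1) • (X : R⟦X⟧) ^ ((n + 1) * (j + 1))) =
      ∑' j : ℕ, (C (u (-((n : ℤ) + 1))) * X ^ (n + 1) : R⟦X⟧) ^ (j + 1) :=
    tsum_congr fun j => h2 (j + 1)
  rw [hs]
  have h3 := geo_aux (u (-((n : ℤ) + 1))) (n + 1) (Nat.succ_pos n)
  have h5 : C (u (-((n : ℤ) + 1))) * C (u ((n : ℤ) + 1)) = (1 : R⟦X⟧) := by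
    rw [← map_mul, u_mul, neg_add_cancel, u_zero, map_one]
  have h6 : C (u ((n : ℤ) + 1)) + C (u (-((n : ℤ) + 1))) = (2 : R⟦X⟧) := by
    rw [← map_add, u_add_neg, map_ofNat]
  generalize (∑' j : ℕ, (C (u (-((n : ℤ) + 1))) * X ^ (n + 1) : R⟦X⟧) ^ (j + 1)) = T at h3 ⊢
  generalize C (u (-((n : ℤ) + 1))) = a at h3 h5 h6 ⊢
  generalize C (u ((n : ℤ) + 1)) = b at h3 h5 h6 ⊢
  generalize (X : R⟦X⟧) ^ (n + 1) = x at h3 ⊢
  have h4 : (1 - x) * (1 - x) = (1 - a * x) * (1 - b * x) := by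
    linear_combination (-x * x) * h5 + x * h6
  rw [h4, ← mul_assoc, h3, one_mul]

theorem odd_case (n : ℕ) (hn : Odd (n + 1)) : (1 - C (u ((n : ℤ) + 1)) * X ^ (n + 1) : R⟦X⟧) =
      (1 + ∑' (j : ℕ), ff (n + 1) (j + 1) • X ^ ((n + 1) * (j + 1))) := by
  have h : ∀ j : ℕ, j ≠ 0 → ff (n + 1) (j + 1) • (X : R⟦X⟧) ^ ((n + 1) * (j + 1)) = 0 := by
    intro j hj
    unfold ff
    rw [if_pos hn, if_neg (by omega), zero_smul]
  rw [tsum_eq_single 0 h]
  unfold ff
  rw [if_pos hn, if_pos rfl, smul_eq_C_mul, map_neg, zero_add, mul_one, Nat.cast_add, Nat.cast_one]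
  ring

theorem gen_mul : Nat.Partition.genFun ff * E2R ^ 2 = rescale (u 1) E1R := by
  have h1 := (Nat.Partition.hasProd_genFun ff).mul (hasProd_E2R.mul hasProd_E2R)
  rw [← sq] at h1
  have key : ∀ n : ℕ, (1 - C (u ((n : ℤ) + 1)) * X ^ (n + 1) : R⟦X⟧) =
      (1 + ∑' (j : ℕ), ff (n + 1) (j + 1) • X ^ ((n + 1) * (j + 1))) *
      ((if Even (n + 1) then 1 - X ^ (n + 1) else 1) * if Even (n + 1) then 1 - X ^ (n + 1) else 1) := by
    intro n
    by_cases hn : Even (n + 1)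
    · rw [if_pos hn]
      exact even_case n hn
    · rw [if_neg hn, mul_one, mul_one]
      exact odd_case n (Nat.not_even_iff_odd.1 hn)
  have h2 := hasProd_rescale
  rw [funext key] at h2
  exact h1.unique h2

theorem coeff_pent (n : ℕ) : (pentagonalSeries R).coeff n = TrivSqZeroExt.inl (E1.coeff n) := by
  unfold E1
  by_cases h : n ∈ Set.range pentagonal
  · obtain ⟨k, rfl⟩ := h
    rw [coeff_pentagonalSeries_pentagonal, coeff_pentagonalSeries_pentagonal]
    rcases Int.even_or_odd k with hk | hk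
    · rw [Int.negOnePow_even _ hk]; simp
    · rw [Int.negOnePow_odd _ hk]; simp
  · rw [coeff_pentagonalSeries_eq_zero _ h, coeff_pentagonalSeries_eq_zero _ h]
    simp

theorem coeff_E2R (n : ℕ) : E2R.coeff n = TrivSqZeroExt.inl (E2.coeff n) := by
  unfold E2R E2 E1R
  rw [coeff_expand, coeff_expand]
  split_ifs
  · rw [coeff_pent]
  · simp

/-- the ring map -/
noncomputable def inlS : ℤ⟦X⟧ →+* R⟦X⟧ := PowerSeries.map (TrivSqZeroExt.inlHom ℤ ℤ)

theorem inlS_E2 : inlS E2 = E2R := by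
  ext n
  · unfold inlS; rw [coeff_map, coeff_E2R]; rfl
  · unfold inlS; rw [coeff_map, coeff_E2R]; rfl

/-- second components -/
noncomputable def sndS (f : R⟦X⟧) : ℤ⟦X⟧ := PowerSeries.mk fun n => (coeff n f).snd

theorem sndS_mul (f : R⟦X⟧) (g : ℤ⟦X⟧) : sndS (f * inlS g) = sndS f * g := by
  ext n
  unfold sndS
  rw [coeff_mk, coeff_mul, coeff_mul, TrivSqZeroExt.snd_sum]
  refine sum_congr rfl fun p _ => ?_
  rw [coeff_mk, TrivSqZeroExt.snd_mul]
  unfold inlS
  rw [coeff_map]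
  simp

/-- the signed generating function -/
noncomputable def G : ℤ⟦X⟧ := PowerSeries.mk fun m => (-1) ^ m * S m

/-- the derivation `q d/dq` -/
noncomputable def th (f : ℤ⟦X⟧) : ℤ⟦X⟧ := X * d⁄dX ℤ f

theorem coeff_th (f : ℤ⟦X⟧) (n : ℕ) : coeff n (th f) = n * coeff n f := by
  unfold th
  cases n with
  | zero => simp
  | succ n =>
    rw [coeff_succ_X_mul, coeff_derivative]
    push_cast
    ring

theorem G_mul : G * E2 ^ 2 = th E1 := by
  have h1 : sndS (Nat.Partition.genFun ff * inlS (E2 ^ 2)) = sndS (rescale (u 1) E1R) := by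
    rw [map_pow, inlS_E2, gen_mul]
  rw [sndS_mul] at h1
  have h2 : sndS (Nat.Partition.genFun ff) = G := by
    ext m
    unfold sndS G
    rw [coeff_mk, coeff_mk, coeff_gen]
  rw [h2] at h1
  rw [h1]
  ext n
  unfold sndS
  rw [coeff_mk, coeff_rescale, coeff_th, u_pow]
  unfold E1R
  rw [coeff_pent, TrivSqZeroExt.snd_mul]
  simp [u_snd, u_fst]

theorem th_T1 : th T1 = 3 * (E1 ^ 2 * (G * E2 ^ 2)) := by
  rw [G_mul, ← jacobi]
  unfold th
  rw [Derivation.leibniz_pow]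
  simp
  ring

theorem main_identity : th T1 * T3 = 3 * (G * E1 ^ 7) := by
  rw [th_T1]
  calc 3 * (E1 ^ 2 * (G * E2 ^ 2)) * T3 = 3 * (E1 ^ 2 * G * (E2 ^ 2 * T3)) := by ring
    _ = _ := by rw [← five]; ring

end Pool.Agent.Q107.OD
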